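import Pool.Agent.N561.V.Defs2

/-!
# Clasps: statements

A clasp is a vertex with one neighbour and weight `-2`.  Its function `stp (-2) 1` is, up to a
factor of modulus `2 π / N`, the explicit sum `Wc`.
-/

set_option autoImplicit false

namespace Pool.Agent.N561

open Finset Filter Topology Metric
open Pool.Agent.W711.HT hiding XX
open Pool.Agent.TH563.UV
open Pool.Agent.TH563.V
open scoped Real

/-- the sum of a clasp of weight `-2` -/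
noncomputable def Wc (N : ℕ) (ψ : ℂ) : ℂ := ∑ d ∈ range N, (-Complex.I) ^ d *
  Complex.exp (-(Complex.I * π * (d * (d - 1)) / (2 * N))) * Rp N d ψ / (Sd N d : ℂ) ^ 3

/-- job K1: the function of a clasp is the sum -/
def S_CEX : Prop := ∀ N : ℕ, 2 ≤ N → ∃ u : ℂ, ‖u‖ = 1 ∧ ∀ ψ : ℂ,
  stp (-2) (fun _ _ => 1) N ψ = 2 * π / N * u * Wc N ψ

/-- the potential of the sum -/
noncomputable def QC (ψ δ : ℂ) : ℂ :=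
  RR δ ψ - 3 * (LS (π * δ) / π) - π * Complex.I / 2 * (δ + δ ^ 2)

/-- its critical point: `exp (2 π i δ) = 1 + 2 i cos (ψ / 2)` -/
noncomputable def dc (ψ : ℂ) : ℂ :=
  Complex.log (1 + 2 * Complex.I * Complex.cos (ψ / 2)) / (2 * π * Complex.I)

/-- its critical value -/
noncomputable def FC (ψ : ℂ) : ℂ := QC ψ (dc ψ)

/-- job K2: the inequalities at `ψ = 0` -/
def S_CQ : Prop := (dc 0).im < 0 ∧ 0 < (dc 0).re ∧ (dc 0).re < 1 / 2 ∧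
  HasDerivAt (QC 0) 0 (dc 0) ∧ (deriv (deriv (QC 0)) (dc 0)).re < 0 ∧ 0 < (FC 0).re ∧
  (∀ x : ℝ, 0 ≤ x → x ≤ 1 / 2 → x ≠ (dc 0).re →
    (QC 0 (x + (dc 0).im * Complex.I)).re < (FC 0).re) ∧
  ∃ a₀ b₀ : ℝ, 0 < a₀ ∧ a₀ < (dc 0).re ∧ (dc 0).re < b₀ ∧ b₀ < 1 / 2 ∧
    ∀ a b : ℝ, 0 < a → a ≤ a₀ → b₀ ≤ b → b < 1 / 2 →
    (∀ y : ℝ, (dc 0).im ≤ y → y ≤ 0 → (QC 0 (a + y * Complex.I)).re < (FC 0).re ∧
      (QC 0 (b + y * Complex.I)).re < (FC 0).re) ∧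
    (∀ y : ℝ, 0 ≤ y → y ≤ -(dc 0).im →
      (QC 0 (a + y * Complex.I)).re - 2 * π * y < (FC 0).re ∧
      (QC 0 (b + y * Complex.I)).re - 2 * π * y < (FC 0).re) ∧
    ∀ x : ℝ, 0 ≤ x → x ≤ b →
      (QC 0 (x - (dc 0).im * Complex.I)).re + 2 * π * (dc 0).im < (FC 0).re

/-- job K2v: a lower bound for the critical value (it is `2 G / π = 0.5831`) -/
def S_CV : Prop := 57 / 100 < (FC 0).re

/-- job K3: asymptotics near `ψ = 0` -/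
def S_CNEAR : Prop := ∃ r : ℝ, 0 < r ∧ r ≤ 1 / 10 ∧ ∀ ε : ℝ, 0 < ε → ∀ᶠ N : ℕ in atTop,
  ∀ ψ ∈ Rc r r, Wc N ψ ≠ 0 ∧ |Real.log ‖Wc N ψ‖ - N * (FC ψ).re| ≤ ε * N

/-- the real exponent of the terms of the sum -/
noncomputable def PCr (δ x : ℝ) : ℝ := bb δ x - (LS (π * δ)).re / π

/-- job K4: inequalities for real `ψ`; `s₀ = 1 / 2 - ψ / (2 π)` is the point where the factors
change their sign -/
def S_CREAL : Prop := ∃ κ ψ₁ η : ℝ, 0 < κ ∧ 0 < ψ₁ ∧ ψ₁ < π / 2 ∧ 0 < η ∧ η ≤ 1 / 10 ∧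
  (∀ δ x : ℝ, 0 ≤ δ → δ ≤ 1 → ψ₁ ≤ x → x ≤ π → PCr δ x ≤ (FC 0).re - κ) ∧
  (∀ δ x : ℝ, 0 ≤ x → x ≤ ψ₁ → 1 / 2 - x / (2 * π) - η ≤ δ → δ ≤ 1 →
    PCr δ x ≤ (FC 0).re - κ)

/-- an upper bound for sums, by a rectangle; the part in the upper half plane has the weight
`exp (-2 π N y)` -/
def S_RECT : Prop := ∀ (q : ℕ → ℂ → ℂ) (Q : ℂ → ℂ) (U : Set ℂ) (a b h M : ℝ)
  (A B : ℕ → ℕ), IsOpen U → (∀ᶠ N : ℕ in atTop, DifferentiableOn ℂ (q N) U) →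
  DifferentiableOn ℂ Q U → TendstoUniformlyOn q Q atTop U →
  (∀ x y : ℝ, a ≤ x → x ≤ b → |y| ≤ h → (x : ℂ) + y * Complex.I ∈ U) → 0 < h →
  Tendsto (fun N : ℕ => (A N : ℝ) / N) atTop (𝓝 a) →
  Tendsto (fun N : ℕ => (B N : ℝ) / N) atTop (𝓝 b) → a < b →
  (∀ x : ℝ, a ≤ x → x ≤ b → (Q (x - h * Complex.I)).re < M) →
  (∀ y : ℝ, 0 ≤ y → y ≤ h → (Q (a - y * Complex.I)).re < M ∧
    (Q (b - y * Complex.I)).re < M) →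
  (∀ y : ℝ, 0 ≤ y → y ≤ h → (Q (a + y * Complex.I)).re - 2 * π * y < M ∧
    (Q (b + y * Complex.I)).re - 2 * π * y < M) →
  (∀ x : ℝ, a ≤ x → x ≤ b → (Q (x + h * Complex.I)).re - 2 * π * h < M) →
  ∃ κ : ℝ, 0 < κ ∧ ∀ᶠ N : ℕ in atTop, ‖∑ d ∈ Ico (A N) (B N),
    Complex.exp (N * q N ((d : ℂ) / N))‖ ≤ Real.exp (N * (M - κ))

/-- job K5: bound away from `ψ = 0` -/
def S_CFAR : Prop := ∀ ρ : ℝ, 0 < ρ → ∃ κ : ℝ, 0 < κ ∧ ∀ᶠ N : ℕ in atTop, ∀ x y : ℝ,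
  ρ ≤ |x| → |x| ≤ π → |y| ≤ 1 / N → ‖Wc N (x + y * Complex.I)‖ ≤ Real.exp (N * ((FC 0).re - κ))

/-- job K6: the critical value as a function of `ψ` -/
def S_CF : Prop := ∃ r c C : ℝ, 0 < r ∧ 0 < c ∧ 0 < C ∧ DifferentiableOn ℂ FC (Rc r r) ∧
  (∀ ψ ∈ Rc r r, FC (-ψ) = FC ψ) ∧
  ∀ ψ ∈ Rc r r, (deriv (deriv FC) ψ).re ≤ -c ∧ ‖deriv (deriv FC) ψ‖ ≤ C

/-- the variable of the clasp: `cos φ = -1 - i cos (ψ / 2)` -/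
noncomputable def zc (ψ : ℂ) : ℂ := -Complex.I * Complex.log (-1 - Complex.I *
  Complex.cos (ψ / 2) + (2 * Complex.I * Complex.cos (ψ / 2) - Complex.cos (ψ / 2) ^ 2) ^
  (1 / 2 : ℂ))

/-- the properties of the potential near `(0, φ₀)` (as `SGP`) -/
structure SGQ (φ₀ : ℂ) (r c C : ℝ) : Prop where
  hr : 0 < r ∧ r ≤ 1 / 10
  hc : 0 < c
  im : ∀ φ ∈ ball φ₀ r, 0 < φ.im ∧ 0 < φ.re ∧ φ.re < π
  san : DifferentiableOn ℂ (fun p : ℂ × ℂ => sg p.1 p.2) (Rc r r ×ˢ ball φ₀ r)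
  dan : DifferentiableOn ℂ (fun p : ℂ × ℂ => dst p.1 p.2) (Rc r r ×ˢ ball φ₀ r)
  sbd : ∀ ψ ∈ Rc r r, ∀ φ ∈ ball φ₀ r, ‖sg ψ φ‖ ≤ C
  ev : ∀ ψ ∈ Rc r r, ∀ φ ∈ ball φ₀ r, sg (-ψ) φ = sg ψ φ
  dcos : ∀ ψ ∈ Rc r r, ∀ φ ∈ ball φ₀ r, Complex.cos (2 * π * dst ψ φ) =
    (1 - Complex.cos ψ * Complex.cos φ) / (2 + Complex.cos ψ + Complex.cos φ)
  dpos : ∀ ψ ∈ Rc r r, ∀ φ ∈ ball φ₀ r, 0 < (dst ψ φ).re ∧
    2 * π * (dst ψ φ).re + |ψ.re| < π ∧ 2 * π * |(dst ψ φ).im| < φ.im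
  dder : ∀ ψ ∈ Rc r r, ∀ φ ∈ ball φ₀ r, HasDerivAt (TH ψ φ) 0 (dst ψ φ)
  sder1 : ∀ ψ ∈ Rc r r, ∀ φ ∈ ball φ₀ r,
    HasDerivAt (fun z => sg z φ) (-(1 / (2 * π)) * Lg (2 * π * dst ψ φ) ψ) ψ
  sder2 : ∀ ψ ∈ Rc r r, ∀ φ ∈ ball φ₀ r,
    HasDerivAt (fun z => sg ψ z) (-(1 / (2 * π)) * Lg (2 * π * dst ψ φ) φ) φ

/-- job K7: the potential near the point of the clasp -/
def S_CSG : Prop := ∃ r c C : ℝ, SGQ (zc 0) r c C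

/-- job K8: the geometric meaning of the potential near the point of the clasp -/
def S_CGEO : Prop := GEOS (zc 0) sg

/-- job K9: the two descriptions of the critical value -/
def S_CCR : Prop := ∀ g : ℝ, 0 < g → ∃ (r : ℝ) (k : ℂ), 0 < r ∧ r ≤ 1 / 10 ∧ k.re = 0 ∧
  ∀ ψ ∈ Rc r r, ‖zc ψ - zc 0‖ ≤ g ∧
    Complex.I * (-2) * zc ψ / (2 * π) + Complex.I + deriv (fun w => sg ψ w) (zc ψ) = 0 ∧
    FC ψ + k = qq (-2) (fun _ => 0) (zc ψ) + sg ψ (zc ψ) ∧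
    HasDerivAt FC (deriv (fun w => sg w (zc ψ)) ψ) ψ

end Pool.Agent.N561
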